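import Mathlib
import Pool.Agent.Y451.FM.Stm

/-! # Project FM: Borel maximal separated sets for free actions of `ℤⁿ` (helper433) -/

set_option autoImplicit false

namespace Pool.Agent.Y433.FM.Mar

open MeasureTheory Pool.Agent.Y451.FM

theorem exists_sepfam (X : Type) [MeasurableSpace X] [StandardBorelSpace X] :
    ∃ B : ℕ → Set X, (∀ n, MeasurableSet (B n)) ∧
      ∀ (v : X) (F : Set X), F.Finite → v ∉ F → ∃ n, v ∈ B n ∧ ∀ w ∈ F, w ∉ B n := by
  obtain ⟨q, hq⟩ := exists_surjective_nat (ℚ × ℚ)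
  refine ⟨fun n => (embeddingReal X) ⁻¹' Set.Ioo ((q n).1 : ℝ) ((q n).2 : ℝ), fun n =>
    (measurableEmbedding_embeddingReal X).measurable measurableSet_Ioo, ?_⟩
  intro v F hF hv
  have h1 : IsOpen ((embeddingReal X '' F)ᶜ) := (hF.image _).isClosed.isOpen_compl
  have h2 : embeddingReal X v ∈ (embeddingReal X '' F)ᶜ := by
    rintro ⟨w, hw, h⟩
    exact hv ((measurableEmbedding_embeddingReal X).injective h ▸ hw)
  obtain ⟨s, hs, hvs, hsub⟩ := Real.isTopologicalBasis_Ioo_rat.exists_subset_of_mem_open h2 h1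
  simp only [Set.mem_iUnion, Set.mem_singleton_iff] at hs
  obtain ⟨a, b, -, rfl⟩ := hs
  obtain ⟨n, hn⟩ := hq (a, b)
  refine ⟨n, ?_, fun w hw hw' => ?_⟩
  · rw [Set.mem_preimage, hn]; exact hvs
  · rw [Set.mem_preimage, hn] at hw'
    exact hsub hw' ⟨w, hw, rfl⟩

/-- the greedy sets -/
def Wn {n : ℕ} {X : Type} (a : Gp n → X → X) (N : ℕ) (An : ℕ → Set X) : ℕ → Set X
  | 0 => ∅
  | i + 1 => Wn a N An i ∪ {x | x ∈ An i ∧ ∀ g ∈ B n N, a g x ∉ Wn a N An i}

theorem neg_mem {n N : ℕ} {g : Gp n} (h : g ∈ B n N) : -g ∈ B n N := by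
  rw [mem_B] at h ⊢
  intro i
  rw [Pi.neg_apply, abs_neg]
  exact h i

theorem zero_mem (n N : ℕ) : (0 : Gp n) ∈ B n N := by
  rw [mem_B]
  intro i
  simp

/-- **FM-MAR**. -/
theorem done : S_MAR := by
  intro n X _ _ a hA N
  obtain ⟨Bs, hBm, hB⟩ := exists_sepfam X
  set An : ℕ → Set X := fun i => {x | x ∈ Bs i ∧ ∀ g ∈ B n N, g ≠ 0 → a g x ∉ Bs i} with hAn
  have hAnm : ∀ i, MeasurableSet (An i) := by
    intro i
    have : An i = Bs i ∩ ⋂ g ∈ B n N, ({x | g ≠ 0}ᶜ ∪ ((a g) ⁻¹' Bs i)ᶜ) := by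
      ext x
      simp only [hAn, Set.mem_ofPred_eq, Set.mem_inter_iff, Set.mem_iInter, Set.mem_union,
        Set.mem_compl_iff, Set.mem_preimage]
      refine and_congr_right fun _ => forall_congr' fun g => forall_congr' fun _ => ?_
      tauto
    rw [this]
    refine (hBm i).inter (Finset.measurableSet_biInter _ fun g _ => ?_)
    exact (MeasurableSet.const _).compl.union ((hA.meas g) (hBm i)).compl
  have hWm : ∀ i, MeasurableSet (Wn a N An i) := by
    intro i
    induction i with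
    | zero => exact MeasurableSet.empty
    | succ i ih =>
      have : Wn a N An (i + 1) = Wn a N An i ∪
          (An i ∩ ⋂ g ∈ B n N, ((a g) ⁻¹' Wn a N An i)ᶜ) := by
        ext x
        simp only [Wn, Set.mem_ofPred_eq, Set.mem_inter_iff, Set.mem_iInter, Set.mem_union,
          Set.mem_compl_iff, Set.mem_preimage]
      rw [this]
      exact ih.union ((hAnm i).inter
        (Finset.measurableSet_biInter _ fun g _ => ((hA.meas g) ih).compl))
  have hmono : ∀ i j, i ≤ j → Wn a N An i ⊆ Wn a N An j := by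
    intro i j h
    induction j, h using Nat.le_induction with
    | base => exact subset_rfl
    | succ m _ ih => exact ih.trans Set.subset_union_left
  have henter : ∀ i, ∀ x ∈ Wn a N An i, ∃ m < i, x ∈ An m ∧
      (∀ g ∈ B n N, a g x ∉ Wn a N An m) ∧ x ∈ Wn a N An (m + 1) := by
    intro i
    induction i with
    | zero => intro x hx; exact absurd hx (Set.notMem_empty x)
    | succ i ih =>
      rintro x (h | h)
      · obtain ⟨m, hm, h'⟩ := ih x h
        exact ⟨m, by omega, h'⟩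
      · exact ⟨i, by omega, h.1, h.2, Or.inr h⟩
  refine ⟨⋃ i, Wn a N An i, MeasurableSet.iUnion hWm, ?_, ?_⟩
  · intro x hx g hg hg0 hu
    rw [Set.mem_iUnion] at hx hu
    obtain ⟨i, hx⟩ := hx
    obtain ⟨i', hu⟩ := hu
    obtain ⟨m, -, hm1, hm2, hm3⟩ := henter i x hx
    obtain ⟨m', -, hm1', hm2', hm3'⟩ := henter i' _ hu
    have hback : a (-g) (a g x) = x := by
      rw [← hA.add, neg_add_cancel, hA.zero]
    rcases lt_trichotomy m m' with h | h | h
    · refine hm2' (-g) (neg_mem hg) ?_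
      rw [hback]
      exact hmono (m + 1) m' h hm3
    · subst h
      exact hm1.2 g hg hg0 hm1'.1
    · exact hm2 g hg (hmono (m' + 1) m h hm3')
  · intro x
    set F : Set X := (fun g : Gp n => a g x) '' {g | g ∈ B n N ∧ g ≠ 0} with hF
    have hFf : F.Finite := by
      refine Set.Finite.image _ (Set.Finite.subset (B n N).finite_toSet ?_)
      intro g hg
      exact hg.1
    obtain ⟨i, hi1, hi2⟩ := hB x F hFf (by
      rintro ⟨g, hg, h⟩
      exact hg.2 (hA.free g x h))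
    have hxi : x ∈ An i := ⟨hi1, fun g hg hg0 => hi2 _ ⟨g, ⟨hg, hg0⟩, rfl⟩⟩
    by_cases h : ∀ g ∈ B n N, a g x ∉ Wn a N An i
    · refine ⟨0, zero_mem n N, ?_⟩
      rw [hA.zero, Set.mem_iUnion]
      exact ⟨i + 1, Or.inr ⟨hxi, h⟩⟩
    · push Not at h
      obtain ⟨g, h1, h2⟩ := h
      exact ⟨g, h1, Set.mem_iUnion.2 ⟨i, h2⟩⟩

end Pool.Agent.Y433.FM.Mar
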